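import Mathlib

/-!
# Shift radix systems with non-real unimodular eigenvalues can have unbounded orbits

For every `d ≥ 4` there is a parameter `r` on the boundary part `E_d^(C)` with unbounded orbits of
the shift radix system: the characteristic polynomial is
`X ^ (d - 4) * (X ^ 2 + 1) * (X ^ 2 + 13/10 X + 9/10)`, so that the only unimodular roots are the
simple roots `i` and `-i`, while all other roots lie strictly inside the unit disc.
The orbit comes from a resonance: the shift radix system with the contracting parameter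
`(9/10, 13/10)` has the cycle `-3, 2, 1, -3, 3, -1, -1, 3` of length 8, and the integer recurrence
`y (n + 2) + y n = z n` driven by this cycle has unbounded solutions.
-/

set_option autoImplicit false

open Polynomial

namespace Pool.Agent.Results.MP_e7d72a_nt.Resonance

/-- the characteristic polynomial `X ^ d + r_(d-1) X ^ (d-1) + ... + r_1 X + r_0` -/
noncomputable def charPoly {d : ℕ} (r : Fin d → ℝ) : ℝ[X] :=
  X ^ d + ∑ j : Fin d, C (r j) * X ^ (j : ℕ)

/-- `E_d`: all roots of the characteristic polynomial lie in the open unit disc -/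
def E (d : ℕ) : Set (Fin d → ℝ) := {r | ∀ μ : ℂ, aeval μ (charPoly r) = 0 → ‖μ‖ < 1}

/-- `E_d^(C)`: the points of the closure of `E_d` whose characteristic polynomial has a non-real
root of modulus one -/
def EC (d : ℕ) : Set (Fin d → ℝ) :=
  {r | r ∈ closure (E d) ∧ ∃ μ : ℂ, μ.im ≠ 0 ∧ ‖μ‖ = 1 ∧ aeval μ (charPoly r) = 0}

/-- the shift radix system `(z_0, ..., z_(d-1)) ↦ (z_1, ..., z_(d-1), -⌊r z⌋)` -/
noncomputable def tau {d : ℕ} (r : Fin d → ℝ) (z : Fin d → ℤ) : Fin d → ℤ := fun i =>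
  if h : (i : ℕ) + 1 < d then z ⟨i + 1, h⟩ else -⌊∑ j, r j * (z j : ℝ)⌋

/-- the orbit of `z` is ultimately periodic -/
def UltPeriodic {d : ℕ} (r : Fin d → ℝ) (z : Fin d → ℤ) : Prop :=
  ∃ n p : ℕ, 1 ≤ p ∧ (tau r)^[n + p] z = (tau r)^[n] z

/-- `D_d`: every orbit is ultimately periodic -/
def D (d : ℕ) : Set (Fin d → ℝ) := {r | ∀ z, UltPeriodic r z}

/-- the parameter -/
noncomputable def rr (k : ℕ) : Fin (k + 4) → ℝ := fun j =>
  if (j : ℕ) = k then 9 / 10 else if (j : ℕ) = k + 1 then 13 / 10 else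
    if (j : ℕ) = k + 2 then 19 / 10 else if (j : ℕ) = k + 3 then 13 / 10 else 0

lemma sum_rr {M : Type*} [AddCommMonoid M] (k : ℕ) (g : ℝ → ℕ → M) (h0 : ∀ n, g 0 n = 0) :
    ∑ j : Fin (k + 4), g (rr k j) j =
      g (9 / 10) k + g (13 / 10) (k + 1) + g (19 / 10) (k + 2) + g (13 / 10) (k + 3) := by
  rw [Fin.sum_univ_add, Fin.sum_univ_four]
  have h1 : ∑ i : Fin k, g (rr k (Fin.castAdd 4 i)) (Fin.castAdd 4 i : Fin (k + 4)) = 0 := by
    apply Finset.sum_eq_zero
    intro i _
    have hi := i.2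
    have : rr k (Fin.castAdd 4 i) = 0 := by
      simp only [rr, Fin.val_castAdd]
      rw [if_neg (by omega), if_neg (by omega), if_neg (by omega), if_neg (by omega)]
    rw [this, h0]
  rw [h1, zero_add]
  simp [rr]

lemma charPoly_rr (k : ℕ) : charPoly (rr k) =
    X ^ k * ((X ^ 2 + 1) * (X ^ 2 + C (13 / 10) * X + C (9 / 10))) := by
  unfold charPoly
  rw [sum_rr k (fun c n => C c * X ^ n) (by simp)]
  have h19 : (C (19 / 10 : ℝ) : ℝ[X]) = 1 + C (9 / 10) := by
    rw [← C_1, ← C_add]; norm_num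
  rw [h19]
  ring

/-- all roots lie in the closed unit disc -/
lemma root_le (k : ℕ) (μ : ℂ) (h : aeval μ (charPoly (rr k)) = 0) : ‖μ‖ ≤ 1 := by
  rw [charPoly_rr] at h
  simp only [map_mul, map_pow, map_add, aeval_X, map_one, aeval_C] at h
  rcases mul_eq_zero.mp h with h | h
  · have : μ = 0 := by
      rcases Nat.eq_zero_or_pos k with hk | hk
      · subst hk; simp at h
      · exact pow_eq_zero_iff (by omega) |>.mp h
    simp [this]
  rcases mul_eq_zero.mp h with h | h
  · have h1 : μ ^ 2 = -1 := by linear_combination h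
    have h2 : ‖μ‖ ^ 2 = 1 := by rw [← norm_pow, h1]; simp
    nlinarith [norm_nonneg μ]
  · have hre := congrArg Complex.re h
    have him := congrArg Complex.im h
    simp [pow_two] at hre him
    have hn : ‖μ‖ ^ 2 = μ.re ^ 2 + μ.im ^ 2 := by
      rw [Complex.sq_norm, Complex.normSq_apply]; ring
    have h3 : μ.im * (2 * μ.re + 13 / 10) = 0 := by linarith
    rcases mul_eq_zero.mp h3 with h4 | h4
    · exfalso
      rw [h4] at hre
      nlinarith [sq_nonneg (μ.re + 13 / 20)]
    · have h5 : μ.re = -13 / 20 := by linarith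
      rw [h5] at hre
      have h6 : ‖μ‖ ^ 2 ≤ 1 := by
        rw [hn, h5]; nlinarith
      nlinarith [norm_nonneg μ]

lemma aeval_charPoly {d : ℕ} (r : Fin d → ℝ) (μ : ℂ) :
    aeval μ (charPoly r) = μ ^ d + ∑ j : Fin d, (r j : ℂ) * μ ^ (j : ℕ) := by
  simp [charPoly]

lemma mem_closure_E {d : ℕ} (r : Fin d → ℝ)
    (h : ∀ μ : ℂ, aeval μ (charPoly r) = 0 → ‖μ‖ ≤ 1) : r ∈ closure (E d) := by
  have hc : Continuous fun t : ℝ => (fun j : Fin d => t ^ (d - (j : ℕ)) * r j) := by fun_prop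
  have h1 : (1 : ℝ) ∈ closure (Set.Ioo (0 : ℝ) 1) := by
    rw [closure_Ioo (by norm_num)]; simp
  have h2 : Set.MapsTo (fun t : ℝ => (fun j : Fin d => t ^ (d - (j : ℕ)) * r j))
      (Set.Ioo (0 : ℝ) 1) (E d) := by
    rintro t ⟨ht0, ht1⟩ μ hμ
    rw [aeval_charPoly] at hμ
    have htc : (t : ℂ) ≠ 0 := by exact_mod_cast ht0.ne'
    have h3 : aeval (μ / t) (charPoly r) = 0 := by
      rw [aeval_charPoly]
      have h4 : (t : ℂ) ^ d * ((μ / t) ^ d + ∑ j : Fin d, (r j : ℂ) * (μ / t) ^ (j : ℕ)) = 0 := by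
        rw [mul_add, Finset.mul_sum, ← hμ]
        congr 1
        · rw [div_pow]; field_simp
        · apply Finset.sum_congr rfl
          intro j _
          have hj : (t : ℂ) ^ d = t ^ (d - (j : ℕ)) * t ^ (j : ℕ) := by
            rw [← pow_add]; congr 1; omega
          rw [hj, div_pow]
          push_cast
          field_simp
      exact (mul_eq_zero.mp h4).resolve_left (pow_ne_zero _ htc)
    have h5 := h _ h3
    rw [norm_div, Complex.norm_real, Real.norm_of_nonneg ht0.le, div_le_one ht0] at h5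
    exact lt_of_le_of_lt h5 ht1
  have h3 := map_mem_closure hc h1 h2
  simpa using h3

lemma rr_mem_EC (k : ℕ) : rr k ∈ EC (k + 4) := by
  refine ⟨mem_closure_E _ (root_le k), Complex.I, by simp, by simp, ?_⟩
  rw [charPoly_rr]
  simp

/-- the unbounded integer sequence -/
def yy (n : ℕ) : ℤ :=
  match n % 8 with
  | 0 => 0
  | 1 => - (n / 8 : ℕ)
  | 2 => -3
  | 3 => 2 + (n / 8 : ℕ)
  | 4 => 4
  | 5 => -5 - (n / 8 : ℕ)
  | 6 => -1
  | _ => 4 + (n / 8 : ℕ)

lemma yy_spec (n : ℕ) :
    0 ≤ 9 * yy n + 13 * yy (n + 1) + 19 * yy (n + 2) + 13 * yy (n + 3) + 10 * yy (n + 4) ∧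
    9 * yy n + 13 * yy (n + 1) + 19 * yy (n + 2) + 13 * yy (n + 3) + 10 * yy (n + 4) < 10 := by
  obtain ⟨q, j, hj, rfl⟩ : ∃ q j : ℕ, j < 8 ∧ n = 8 * q + j :=
    ⟨n / 8, n % 8, Nat.mod_lt _ (by norm_num), by omega⟩
  have hm : ∀ a : ℕ, (8 * q + a) % 8 = a % 8 := fun a => by omega
  have hd : ∀ a : ℕ, (8 * q + a) / 8 = q + a / 8 := fun a => by omega
  interval_cases j <;> simp only [yy, add_assoc, hm, hd] <;> norm_num <;> constructor <;> linarith

lemma yy_floor (n : ℕ) :
    -⌊(9 / 10 : ℝ) * yy n + 13 / 10 * yy (n + 1) + 19 / 10 * yy (n + 2) + 13 / 10 * yy (n + 3)⌋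
      = yy (n + 4) := by
  have h := yy_spec n
  have h1 : (0 : ℝ) ≤ 9 * yy n + 13 * yy (n + 1) + 19 * yy (n + 2) + 13 * yy (n + 3)
      + 10 * yy (n + 4) := by exact_mod_cast h.1
  have h2 : (9 : ℝ) * yy n + 13 * yy (n + 1) + 19 * yy (n + 2) + 13 * yy (n + 3)
      + 10 * yy (n + 4) < 10 := by exact_mod_cast h.2
  have h3 : ⌊(9 / 10 : ℝ) * yy n + 13 / 10 * yy (n + 1) + 19 / 10 * yy (n + 2)
      + 13 / 10 * yy (n + 3)⌋ = -yy (n + 4) := by
    rw [Int.floor_eq_iff]
    push_cast
    constructor <;> linarith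
  rw [h3, neg_neg]

/-- the starting point -/
def z0 (k : ℕ) : Fin (k + 4) → ℤ := fun i => yy i

lemma tau_step (k n : ℕ) :
    tau (rr k) (fun i : Fin (k + 4) => yy (n + i)) = fun i : Fin (k + 4) => yy (n + 1 + i) := by
  funext i
  unfold tau
  split_ifs with h
  · simp only
    congr 1
    ring
  · have hi : (i : ℕ) = k + 3 := by omega
    have hs := sum_rr k (fun c m => c * (yy (n + m) : ℝ)) (by simp)
    rw [hs, hi]
    have h1 := yy_floor (n + k)
    have e1 : n + (k + 1) = n + k + 1 := by ring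
    have e2 : n + (k + 2) = n + k + 2 := by ring
    have e3 : n + (k + 3) = n + k + 3 := by ring
    have e4 : n + 1 + (k + 3) = n + k + 4 := by ring
    rw [e1, e2, e3, e4]
    exact h1

lemma tau_iter (k n : ℕ) :
    (tau (rr k))^[n] (z0 k) = fun i : Fin (k + 4) => yy (n + i) := by
  induction n with
  | zero => funext i; simp [z0]
  | succ n ih => rw [Function.iterate_succ_apply', ih, tau_step]

lemma yy_large (q : ℕ) : yy (8 * q + 3) = 2 + q := by
  have h1 : (8 * q + 3) % 8 = 3 := by omega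
  have h2 : (8 * q + 3) / 8 = q := by omega
  simp only [yy, h1, h2]

lemma unbounded (k : ℕ) (B : ℤ) : ∃ n, ∃ i, B < |(tau (rr k))^[n] (z0 k) i| := by
  refine ⟨8 * B.toNat, ⟨3, by omega⟩, ?_⟩
  rw [tau_iter]
  simp only
  rw [yy_large, abs_of_nonneg (by positivity)]
  have := Int.self_le_toNat B
  linarith

/-- an ultimately periodic orbit is bounded -/
lemma bounded_of_ultPeriodic {d : ℕ} (r : Fin d → ℝ) (z : Fin d → ℤ) (h : UltPeriodic r z) :
    ∃ B : ℤ, ∀ n, ∀ i, |(tau r)^[n] z i| ≤ B := by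
  obtain ⟨n0, p, hp, h⟩ := h
  have h1 : ∀ n, ∃ m < n0 + p, (tau r)^[n] z = (tau r)^[m] z := by
    intro n
    induction n using Nat.strong_induction_on with
    | _ n ih =>
      by_cases hn : n < n0 + p
      · exact ⟨n, hn, rfl⟩
      · obtain ⟨m, hm, hmeq⟩ := ih (n - p) (by omega)
        refine ⟨m, hm, ?_⟩
        rw [← hmeq]
        have e1 : n = (n - p - n0) + (n0 + p) := by omega
        have e2 : n - p = (n - p - n0) + n0 := by omega
        rw [e2]
        conv_lhs => rw [e1]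
        rw [Function.iterate_add_apply, h, ← Function.iterate_add_apply]
  refine ⟨∑ m ∈ Finset.range (n0 + p), ∑ i, |(tau r)^[m] z i|, fun n i => ?_⟩
  obtain ⟨m, hm, hmeq⟩ := h1 n
  rw [hmeq]
  calc |(tau r)^[m] z i| ≤ ∑ i, |(tau r)^[m] z i| :=
        Finset.single_le_sum (f := fun i => |(tau r)^[m] z i|) (fun _ _ => abs_nonneg _)
          (Finset.mem_univ i)
    _ ≤ _ := Finset.single_le_sum (f := fun m => ∑ i, |(tau r)^[m] z i|)
          (fun _ _ => Finset.sum_nonneg fun _ _ => abs_nonneg _) (Finset.mem_range.mpr hm)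

/-- Not every orbit of a shift radix system with parameter in `E_d^(C)` is ultimately periodic;
in fact for every `d ≥ 4` there is a parameter in `E_d^(C)` whose only unimodular eigenvalues are
the simple ones `i` and `-i` and which has an unbounded orbit. -/
theorem result :
    (¬ ∀ d : ℕ, 2 ≤ d → EC d ⊆ D d) ∧
    ∀ k : ℕ, ∃ r ∈ EC (k + 4),
      charPoly r = X ^ k * ((X ^ 2 + 1) * (X ^ 2 + C (13 / 10) * X + C (9 / 10))) ∧
      (∀ μ : ℂ, aeval μ (charPoly r) = 0 → ‖μ‖ < 1 ∨ μ = Complex.I ∨ μ = -Complex.I) ∧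
      ∃ z : Fin (k + 4) → ℤ, ¬ UltPeriodic r z ∧ ∀ B : ℤ, ∃ n, ∃ i, B < |(tau r)^[n] z i| := by
  have key : ∀ k : ℕ, ¬ UltPeriodic (rr k) (z0 k) := by
    intro k h
    obtain ⟨B, hB⟩ := bounded_of_ultPeriodic _ _ h
    obtain ⟨n, i, hni⟩ := unbounded k B
    exact absurd (hB n i) (not_le.mpr hni)
  refine ⟨fun h => key 0 (h 4 (by norm_num) (rr_mem_EC 0) _), fun k => ?_⟩
  refine ⟨rr k, rr_mem_EC k, charPoly_rr k, ?_, z0 k, key k, unbounded k⟩
  intro μ h
  by_cases hI : μ = Complex.I ∨ μ = -Complex.I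
  · exact Or.inr hI
  · left
    push Not at hI
    rw [charPoly_rr] at h
    simp only [map_mul, map_pow, map_add, aeval_X, map_one, aeval_C] at h
    rcases mul_eq_zero.mp h with h | h
    · have : μ = 0 := by
        rcases Nat.eq_zero_or_pos k with hk | hk
        · subst hk; simp at h
        · exact pow_eq_zero_iff (by omega) |>.mp h
      simp [this]
    rcases mul_eq_zero.mp h with h | h
    · exfalso
      have h1 : (μ - Complex.I) * (μ + Complex.I) = 0 := by
        have : Complex.I ^ 2 = -1 := Complex.I_sq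
        linear_combination h - this
      rcases mul_eq_zero.mp h1 with h2 | h2
      · exact hI.1 (by linear_combination h2)
      · exact hI.2 (by linear_combination h2)
    · have hre := congrArg Complex.re h
      have him := congrArg Complex.im h
      simp [pow_two] at hre him
      have hn : ‖μ‖ ^ 2 = μ.re ^ 2 + μ.im ^ 2 := by
        rw [Complex.sq_norm, Complex.normSq_apply]; ring
      have h3 : μ.im * (2 * μ.re + 13 / 10) = 0 := by linarith
      rcases mul_eq_zero.mp h3 with h4 | h4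
      · exfalso
        rw [h4] at hre
        nlinarith [sq_nonneg (μ.re + 13 / 20)]
      · have h5 : μ.re = -13 / 20 := by linarith
        rw [h5] at hre
        have h6 : ‖μ‖ ^ 2 < 1 := by
          rw [hn, h5]; nlinarith
        nlinarith [norm_nonneg μ]

end Pool.Agent.Results.MP_e7d72a_nt.Resonance
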